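import Pool.Agent.H673R2.TsFinal
import Pool.Agent.H673R2.Search

/-!
# MP_e4862e_lc: the tree 3-spanner problem is NP-hard
-/

namespace Pool.Agent.Results.MP_e4862e_lc.TreeThreeSpannerNPHard

open Pool.Agent.NPC Pool.Agent.H673R2 Pool.Agent.H673R2.Ts

/-- A function that decides a problem on the instances with the property `Pr`. -/
def Decides {α : Type} [TEnc α] (Pr P : α → Prop) (V : List Bool → List Bool) : Prop :=
  ∀ a, Pr a → (V (bits a) = [true] ↔ P a)

theorem no_decide {α : Type} [TEnc α] {Pr P : α → Prop} (h : NPHardOn Pr P) (hne : PneNP) :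
    ¬ ∃ V : List Bool → List Bool, PolyTime V ∧ Decides Pr P V := by
  rintro ⟨V, hV, hd⟩
  obtain ⟨L, hL, hL'⟩ := hne
  apply hL'
  obtain ⟨g, hg, hgp, hgL⟩ := h L hL
  exact ⟨fun x => V (bits (g x)),
    H642R2.TMSim.polyTime_comp (g := V) (f := fun x => bits (g x)) hV hg,
    fun x => (hgL x).trans (hd _ (hgp x)).symm⟩

/-- The tree 3-spanner problem for connected graphs is `NP`-hard; in particular, if `P ≠ NP`, it is
not decidable in polynomial time. -/
theorem result :
    NPHardOn Valid (HasTreeSpanner 3) ∧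
    (PneNP → ¬ ∃ V : List Bool → List Bool, PolyTime V ∧ Decides Valid (HasTreeSpanner 3) V) :=
  ⟨main, no_decide main⟩

end Pool.Agent.Results.MP_e4862e_lc.TreeThreeSpannerNPHard
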